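import Mathlib

/-!
# Project H487-CAUCHY (frozen statement S03891): definitions and task statements

Weighted `L²` bounds for the Cauchy integral on rectifiable curves.
-/

set_option autoImplicit false

open MeasureTheory Filter Set Topology
open scoped ENNReal NNReal

namespace Pool.Agent.H487R3.Cau

/-- The curve `G(s) = s + a(s)`. -/
noncomputable def G (a : ℝ → ℂ) (s : ℝ) : ℂ := (s : ℂ) + a s

/-- Regularised Cauchy kernel `1 / (G(y) - G(x) + iδ)`. -/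
noncomputable def K (a : ℝ → ℂ) (δ x y : ℝ) : ℂ := (G a y - G a x + δ * Complex.I)⁻¹

/-- Branch of the logarithm with cut on the negative imaginary axis (up to a constant). -/
noncomputable def Lg (z : ℂ) : ℂ := Complex.log (-Complex.I * z)

/-- `Φ(z) = z Lg z`; `Φ'' = 1/z`. -/
noncomputable def Phi (z : ℂ) : ℂ := z * Lg z

/-- `P(x,y) = Φ(G(y) - G(x) + iδ)`: `∂_x ∂_y P = - G'(x) G'(y) K(x,y)`. -/
noncomputable def P (a : ℝ → ℂ) (δ x y : ℝ) : ℂ := Phi (G a y - G a x + δ * Complex.I)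

/-- Difference of the two divided differences at the nodes `l, l+h, l+2h` with respect to `G`. -/
noncomputable def W (a : ℝ → ℂ) (Q : ℝ → ℂ) (l h : ℝ) : ℂ :=
  (Q (l + h) - Q l) / (G a (l + h) - G a l) -
    (Q (l + 2 * h) - Q (l + h)) / (G a (l + 2 * h) - G a (l + h))

/-- `W` on the dyadic interval `[i/2^n, (i+1)/2^n]`. -/
noncomputable def Wd (a : ℝ → ℂ) (Q : ℝ → ℂ) (n i : ℕ) : ℂ :=
  W a Q ((i : ℝ) / 2 ^ n) (1 / 2 ^ (n + 1))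

/-- Matrix coefficient `W_{x in I} W_{y in J} P(x,y)`, `I = (n,i)`, `J = (m,j)`. -/
noncomputable def tm (a : ℝ → ℂ) (δ : ℝ) (n i m j : ℕ) : ℂ :=
  Wd a (fun x => Wd a (fun y => P a δ x y) m j) n i

/-- The decay function. -/
noncomputable def dk (m : ℤ) : ℝ := (1 + |(m : ℝ)|) ^ (-(5 / 4) : ℝ)

/-- The bound of the normalised coefficient of the dyadic intervals `(n,i)` and `(m,j)`, `n ≤ m`. -/
noncomputable def ub (n i m j : ℕ) : ℝ :=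
  (2 : ℝ) ^ (-(((m : ℝ) - n) / 4)) *
    (dk ((j : ℤ) - ((2 * i * 2 ^ m / 2 ^ (n + 1) : ℕ) : ℤ)) +
      dk ((j : ℤ) - (((2 * i + 1) * 2 ^ m / 2 ^ (n + 1) : ℕ) : ℤ)) +
      dk ((j : ℤ) - (((2 * i + 2) * 2 ^ m / 2 ^ (n + 1) : ℕ) : ℤ)))

/-- Symmetrised bound. -/
noncomputable def us (n i m j : ℕ) : ℝ := if n ≤ m then ub n i m j else ub m j n i

/-! ## Kernel estimates -/

/-- T1. The near estimates. For `e, l, h` real, `h > 0`: the `W` of `w ↦ Φ(±(G(e) - G(w)) + iδ)` is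
bounded, and it is `≤ C h / D` if `[l, l+2h]` has distance `≥ D` to `e`. -/
def TaskNear : Prop :=
  ∃ C : ℝ, 0 < C ∧ ∀ a : ℝ → ℂ, LipschitzWith (1 / 10) a → ∀ δ : ℝ, 0 < δ → δ ≤ 1 →
    ∀ e l h : ℝ, 0 < h →
      ‖W a (fun w => P a δ w e) l h‖ ≤ C ∧ ‖W a (fun w => P a δ e w) l h‖ ≤ C ∧
      ∀ D : ℝ, 0 < D → (∀ w ∈ Icc l (l + 2 * h), D ≤ |w - e|) →
        ‖W a (fun w => P a δ w e) l h‖ ≤ C * (h / D) ∧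
        ‖W a (fun w => P a δ e w) l h‖ ≤ C * (h / D)

/-- T2. The far estimate. -/
def TaskFar : Prop :=
  ∃ C : ℝ, 0 < C ∧ ∀ a : ℝ → ℂ, LipschitzWith (1 / 10) a → ∀ δ : ℝ, 0 < δ → δ ≤ 1 →
    ∀ l h l' h' D : ℝ, 0 < h → 0 < h' → 0 < D →
      (∀ x ∈ Icc l (l + 2 * h), ∀ y ∈ Icc l' (l' + 2 * h'), D ≤ |x - y|) →
        ‖W a (fun x => W a (fun y => P a δ x y) l' h') l h‖ ≤ C * (h * h' / D ^ 3)

/-- T3. Matrix bound. -/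
def TaskMatrix : Prop :=
  TaskNear → TaskFar →
  ∃ C : ℝ, 0 < C ∧ ∀ a : ℝ → ℂ, LipschitzWith (1 / 10) a → ∀ δ : ℝ, 0 < δ → δ ≤ 1 →
    ∀ n i m j : ℕ, i < 2 ^ n → j < 2 ^ m →
      √((2 : ℝ) ^ n)⁻¹ * √((2 : ℝ) ^ m)⁻¹ * ‖tm a δ n i m j‖ ≤ C * us n i m j

/-- T3'. Root terms (from `TaskNear`, with a direct estimate for the last one). -/
def TaskRoot : Prop :=
  TaskNear →
  ∃ C : ℝ, 0 < C ∧ ∀ a : ℝ → ℂ, LipschitzWith (1 / 10) a → ∀ δ : ℝ, 0 < δ → δ ≤ 1 →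
    ‖P a δ 1 1 - P a δ 0 1 - P a δ 1 0 + P a δ 0 0‖ ≤ C ∧
    ∀ N : ℕ,
      ∑ m ∈ Finset.range N, ∑ j ∈ Finset.range (2 ^ m),
        ((2 : ℝ) ^ m)⁻¹ * ‖Wd a (fun y => P a δ 1 y - P a δ 0 y) m j‖ ^ 2 ≤ C ∧
      ∑ m ∈ Finset.range N, ∑ j ∈ Finset.range (2 ^ m),
        ((2 : ℝ) ^ m)⁻¹ * ‖Wd a (fun x => P a δ x 1 - P a δ x 0) m j‖ ^ 2 ≤ C

/-- T4. Row and column sums. -/
def TaskRows : Prop :=
  ∃ A : ℝ, 0 < A ∧ ∀ N n i : ℕ, i < 2 ^ n →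
    ∑ m ∈ Finset.range N, ∑ j ∈ Finset.range (2 ^ m), us n i m j ≤ A ∧
    ∑ m ∈ Finset.range N, ∑ j ∈ Finset.range (2 ^ m), us m j n i ≤ A

/-! ## The adapted Haar expansion -/

/-- `β n i = G((i+1)/2^n) - G(i/2^n)`. -/
noncomputable def bt (a : ℝ → ℂ) (n i : ℕ) : ℂ :=
  G a (((i : ℝ) + 1) / 2 ^ n) - G a ((i : ℝ) / 2 ^ n)

/-- T5a. Bessel inequality of the adapted Haar system, in abstract form (`S n i` is `∫_I f b`). -/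
def TaskBessel : Prop :=
  ∃ C : ℝ, 0 < C ∧ ∀ (β S : ℕ → ℕ → ℂ) (N : ℕ),
    (∀ n i, β n i = β (n + 1) (2 * i) + β (n + 1) (2 * i + 1)) →
    (∀ n i, ‖β n i - ((2 : ℂ) ^ n)⁻¹‖ ≤ ((2 : ℝ) ^ n)⁻¹ / 10) →
    (∀ n i, n < N → S n i = S (n + 1) (2 * i) + S (n + 1) (2 * i + 1)) →
      ∑ n ∈ Finset.range N, ∑ i ∈ Finset.range (2 ^ n), ((2 : ℝ) ^ n)⁻¹ *
        ‖S (n + 1) (2 * i) / β (n + 1) (2 * i) -
          S (n + 1) (2 * i + 1) / β (n + 1) (2 * i + 1)‖ ^ 2 ≤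
        C * ∑ i ∈ Finset.range (2 ^ N), (2 : ℝ) ^ N * ‖S N i‖ ^ 2

/-- The second difference of `P` over the cell `(k, l)` of level `N`. -/
noncomputable def Rc (Q : ℝ → ℝ → ℂ) (N k l : ℕ) : ℂ :=
  Q (((k : ℝ) + 1) / 2 ^ N) (((l : ℝ) + 1) / 2 ^ N) - Q ((k : ℝ) / 2 ^ N) (((l : ℝ) + 1) / 2 ^ N) -
    Q (((k : ℝ) + 1) / 2 ^ N) ((l : ℝ) / 2 ^ N) + Q ((k : ℝ) / 2 ^ N) ((l : ℝ) / 2 ^ N)

/-- T5b. Expansion in the adapted Haar basis plus Schur's test, for an arbitrary function `Q` of two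
variables. -/
def TaskSchur : Prop :=
  TaskBessel → ∀ A : ℝ, 0 < A → ∃ C : ℝ, 0 < C ∧ ∀ (a : ℝ → ℂ), LipschitzWith (1 / 10) a →
    ∀ (Q : ℝ → ℝ → ℂ) (N : ℕ),
    (∀ n i, n < N → i < 2 ^ n →
      ∑ m ∈ Finset.range N, ∑ j ∈ Finset.range (2 ^ m), √((2 : ℝ) ^ n)⁻¹ * √((2 : ℝ) ^ m)⁻¹ *
        ‖Wd a (fun x => Wd a (fun y => Q x y) m j) n i‖ ≤ A) →
    (∀ m j, m < N → j < 2 ^ m →
      ∑ n ∈ Finset.range N, ∑ i ∈ Finset.range (2 ^ n), √((2 : ℝ) ^ n)⁻¹ * √((2 : ℝ) ^ m)⁻¹ *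
        ‖Wd a (fun x => Wd a (fun y => Q x y) m j) n i‖ ≤ A) →
    ‖Q 1 1 - Q 0 1 - Q 1 0 + Q 0 0‖ ≤ A →
    ∑ m ∈ Finset.range N, ∑ j ∈ Finset.range (2 ^ m),
        ((2 : ℝ) ^ m)⁻¹ * ‖Wd a (fun y => Q 1 y - Q 0 y) m j‖ ^ 2 ≤ A →
    ∑ m ∈ Finset.range N, ∑ j ∈ Finset.range (2 ^ m),
        ((2 : ℝ) ^ m)⁻¹ * ‖Wd a (fun x => Q x 1 - Q x 0) m j‖ ^ 2 ≤ A →
    ∀ f g : ℕ → ℂ,
      ‖∑ k ∈ Finset.range (2 ^ N), ∑ l ∈ Finset.range (2 ^ N), f k * g l * Rc Q N k l‖ ≤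
        C * √(∑ k ∈ Finset.range (2 ^ N), ((2 : ℝ) ^ N)⁻¹ * ‖f k‖ ^ 2) *
          √(∑ l ∈ Finset.range (2 ^ N), ((2 : ℝ) ^ N)⁻¹ * ‖g l‖ ^ 2)

/-- The discrete theorem (assembled from the tasks above). -/
def Discrete : Prop :=
  ∃ C : ℝ, 0 < C ∧ ∀ a : ℝ → ℂ, LipschitzWith (1 / 10) a → ∀ δ : ℝ, 0 < δ → δ ≤ 1 →
    ∀ (N : ℕ) (f g : ℕ → ℂ),
      ‖∑ k ∈ Finset.range (2 ^ N), ∑ l ∈ Finset.range (2 ^ N), f k * g l * Rc (P a δ) N k l‖ ≤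
        C * √(∑ k ∈ Finset.range (2 ^ N), ((2 : ℝ) ^ N)⁻¹ * ‖f k‖ ^ 2) *
          √(∑ l ∈ Finset.range (2 ^ N), ((2 : ℝ) ^ N)⁻¹ * ‖g l‖ ^ 2)

/-! ## From the discrete theorem to the `L²` bound -/

/-- T6. The integral over a rectangle: `b = 1 + a'`. -/
def TaskRect : Prop :=
  ∀ a : ℝ → ℂ, LipschitzWith (1 / 10) a → ∀ δ : ℝ, 0 < δ → ∀ x₁ x₂ y₁ y₂ : ℝ, x₁ ≤ x₂ → y₁ ≤ y₂ →
    ∫ x in Ico x₁ x₂, ∫ y in Ico y₁ y₂, (1 + deriv a x) * (1 + deriv a y) * K a δ x y =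
      -(P a δ x₂ y₂ - P a δ x₁ y₂ - P a δ x₂ y₁ + P a δ x₁ y₁)

/-- The `L²` bound on `[0,1)`. -/
def BoundZero : Prop :=
  ∃ C : ℝ, 0 < C ∧ ∀ a : ℝ → ℂ, LipschitzWith (1 / 10) a → ∀ δ : ℝ, 0 < δ → δ ≤ 1 →
    ∀ f g : ℝ → ℂ, MemLp f 2 (volume.restrict (Ico 0 1)) → MemLp g 2 (volume.restrict (Ico 0 1)) →
      ‖∫ x in Ico (0 : ℝ) 1, ∫ y in Ico (0 : ℝ) 1, f x * g y * K a δ x y‖ ≤
        C * √(∫ x in Ico (0 : ℝ) 1, ‖f x‖ ^ 2) * √(∫ x in Ico (0 : ℝ) 1, ‖g x‖ ^ 2)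

/-- T7. Density of dyadic step functions. -/
def TaskDense : Prop := Discrete → TaskRect → BoundZero

/-- The `L²` bound on `[α, α+1)`. -/
def Bound : Prop :=
  ∃ C : ℝ, 0 < C ∧ ∀ a : ℝ → ℂ, LipschitzWith (1 / 10) a → ∀ α δ : ℝ, 0 < δ → δ ≤ 1 →
    ∀ f g : ℝ → ℂ, MemLp f 2 (volume.restrict (Ico α (α + 1))) →
      MemLp g 2 (volume.restrict (Ico α (α + 1))) →
      ‖∫ x in Ico α (α + 1), ∫ y in Ico α (α + 1), f x * g y * K a δ x y‖ ≤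
        C * √(∫ x in Ico α (α + 1), ‖f x‖ ^ 2) * √(∫ x in Ico α (α + 1), ‖g x‖ ^ 2)

/-- T8. Translation. -/
def TaskTranslate : Prop := BoundZero → Bound

/-- The `L²` bound of the upper limit of the truncated Cauchy integrals. -/
def Limsup : Prop :=
  ∃ C : ℝ≥0, ∀ a : ℝ → ℂ, LipschitzWith (1 / 10) a → ∀ (α : ℝ) (f : ℝ → ℂ),
    MemLp f 2 volume → (∀ s, s ∉ Ico α (α + 1) → f s = 0) →
    ∃ B : ℝ → ℝ≥0∞, Measurable B ∧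
      (∀ᵐ t : ℝ, t ∈ Ioo α (α + 1) →
        limsup (fun ε : ℝ => ‖∫ s in {s : ℝ | ε < |s - t|}, f s / (G a s - G a t)‖ₑ)
          (𝓝[>] (0 : ℝ)) ≤ B t) ∧
      ∫⁻ t, B t ^ 2 ≤ C * ∫⁻ s, ‖f s‖ₑ ^ 2

/-- T9a. The tail term. -/
def TaskTail : Prop :=
  ∀ f : ℝ → ℂ, Integrable f → ∀ᵐ t : ℝ,
    limsup (fun ε : ℝ => ∫⁻ s in {s : ℝ | ε < |s - t|}, ‖f s‖ₑ * ENNReal.ofReal (ε / (s - t) ^ 2))
      (𝓝[>] (0 : ℝ)) ≤ 16 * ‖f t‖ₑ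

/-- T9. The passage to the limit. -/
def TaskLimit : Prop := TaskTail → Bound → Limsup

/-! ## The rectifiable curve -/

/-- The quantity of the frozen statement. -/
noncomputable def Amax (L : ℝ) (γ : ℝ → ℂ) (f : ℝ → ℂ) (t : ℝ) : ℝ≥0∞ :=
  Filter.limsup
    (fun ε : ℝ =>
      ‖(2 * (Real.pi : ℂ) * Complex.I)⁻¹ *
        ∫ s in {s : ℝ | s ∈ Set.Icc (0 : ℝ) L ∧ ε < ‖γ s - γ t‖},
          f s * deriv γ s / (γ s - γ t)‖ₑ)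
    (nhdsWithin (0 : ℝ) (Set.Ioi 0))

/-- A compact set of parameters on which the curve is uniformly close to a line. -/
structure Good (L : ℝ) (γ : ℝ → ℂ) (E : Set ℝ) (u : ℂ) (ρ κ : ℝ) : Prop where
  closed : IsClosed E
  sub : E ⊆ Icc 0 L
  nu : ‖u‖ = 1
  ρpos : 0 < ρ
  ρle : ρ ≤ 1 / 8
  κpos : 0 < κ
  diam : ∀ s ∈ E, ∀ t ∈ E, |s - t| < ρ
  line : ∀ t ∈ E, ∀ s ∈ Icc (0 : ℝ) L, |s - t| < ρ →
    ‖γ s - γ t - u * ((s : ℂ) - t)‖ ≤ |s - t| / 20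
  far : ∀ t ∈ E, ∀ s ∈ Icc (0 : ℝ) L, ρ ≤ |s - t| → κ ≤ ‖γ s - γ t‖

/-- T11. Almost every parameter lies in one of countably many good sets. -/
def TaskCover : Prop :=
  ∀ L : ℝ, 0 < L → ∀ γ : ℝ → ℂ, LipschitzWith 1 γ →
    (∀ᵐ s ∂(volume.restrict (Icc (0 : ℝ) L)), ‖deriv γ s‖ = 1) →
    Set.InjOn γ (Ico (0 : ℝ) L) →
    ∃ (E : ℕ → Set ℝ) (u : ℕ → ℂ) (ρ κ : ℕ → ℝ), (∀ n, Good L γ (E n) (u n) (ρ n) (κ n)) ∧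
      ∀ᵐ t ∂(volume.restrict (Icc (0 : ℝ) L)), ∃ n, t ∈ E n

/-- T10a. Extension: a Lipschitz function `a` on the line with `u (s + a s) = γ s` on `E`. -/
def TaskExt : Prop :=
  ∀ (L : ℝ) (γ : ℝ → ℂ) (E : Set ℝ) (u : ℂ) (ρ κ : ℝ), Good L γ E u ρ κ →
    ∃ a : ℝ → ℂ, LipschitzWith (1 / 10) a ∧ ∀ s ∈ E, u * G a s = γ s

/-- T10b. The Marcinkiewicz weight. -/
def TaskMarc : Prop :=
  ∀ (L : ℝ) (E : Set ℝ), 0 < L → IsClosed E → E ⊆ Icc 0 L → E.Nonempty →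
    ∃ ω : ℝ → ℝ, Measurable ω ∧ (∀ t, 0 ≤ ω t) ∧ (∀ t, ω t ≤ 1) ∧ (∀ᵐ t : ℝ, t ∈ E → 0 < ω t) ∧
      ∀ F : ℝ → ℝ≥0∞, Measurable F →
        ∫⁻ t in E, (∫⁻ s in Icc (0 : ℝ) L, F s * ENNReal.ofReal (Metric.infDist s E / (s - t) ^ 2)) ^ 2
            * ENNReal.ofReal (ω t) ≤
          2 * ∫⁻ s in Icc (0 : ℝ) L, F s ^ 2

/-- T10c. The pointwise estimate on a good set. -/
def TaskPoint : Prop :=
  ∀ (L : ℝ) (γ : ℝ → ℂ) (E : Set ℝ) (u : ℂ) (ρ κ : ℝ), 0 < L → LipschitzWith 1 γ →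
    Good L γ E u ρ κ → ∀ a : ℝ → ℂ, LipschitzWith (1 / 10) a → (∀ s ∈ E, u * G a s = γ s) →
    ∀ α : ℝ, (∀ t ∈ E, α < t - 1 / 4 ∧ t + 1 / 4 < α + 1) →
    ∃ C : ℝ≥0, ∀ f : ℝ → ℂ, Measurable f → MemLp f 2 (volume.restrict (Icc (0 : ℝ) L)) →
      ∀ᵐ t : ℝ, t ∈ E →
        Amax L γ f t ≤ C * (∫⁻ s in Icc (0 : ℝ) L, ‖f s‖ₑ) + C * ‖f t‖ₑ +
          C * (∫⁻ s in Icc (0 : ℝ) L, ‖f s‖ₑ * ENNReal.ofReal (Metric.infDist s E / (s - t) ^ 2)) +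
          limsup (fun ε : ℝ => ‖∫ s in {s : ℝ | ε < |s - t|},
            (Icc (0 : ℝ) L ∩ Ico α (α + 1)).indicator (fun s => f s * deriv γ s / u) s /
              (G a s - G a t)‖ₑ) (𝓝[>] (0 : ℝ))

end Pool.Agent.H487R3.Cau
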