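import Pool.Agent.H487R3.Cau.Stmts

/-!
# Project H487-CAUCHY: assembly
-/

set_option autoImplicit false

open MeasureTheory Filter Set Topology
open scoped ENNReal NNReal

namespace Pool.Agent.H487R3.Cau

theorem discrete (h1 : TaskNear) (h2 : TaskFar) (h3 : TaskMatrix) (h3' : TaskRoot)
    (h4 : TaskRows) (h5 : TaskBessel) (h6 : TaskSchur) : Discrete := by
  obtain ⟨Cm, hCm, hm⟩ := h3 h1 h2
  obtain ⟨Cr, hCr, hr⟩ := h3' h1
  obtain ⟨A, hA, hrow⟩ := h4
  obtain ⟨C, hC, hs⟩ := h6 h5 (Cm * A + Cr) (by positivity)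
  refine ⟨C, hC, fun a ha δ hδ hδ1 N f g => ?_⟩
  have hCA : 0 ≤ Cm * A := by positivity
  obtain ⟨r1, r2⟩ := hr a ha δ hδ hδ1
  apply hs a ha (P a δ) N
  · intro n i hn hi
    calc _ ≤ ∑ m ∈ Finset.range N, ∑ j ∈ Finset.range (2 ^ m), Cm * us n i m j := by
          apply Finset.sum_le_sum
          intro m _
          apply Finset.sum_le_sum
          intro j hj
          exact hm a ha δ hδ hδ1 n i m j hi (Finset.mem_range.1 hj)
      _ = Cm * ∑ m ∈ Finset.range N, ∑ j ∈ Finset.range (2 ^ m), us n i m j := by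
          simp [Finset.mul_sum]
      _ ≤ Cm * A := mul_le_mul_of_nonneg_left (hrow N n i hi).1 hCm.le
      _ ≤ _ := by linarith
  · intro m j hm' hj
    calc _ ≤ ∑ n ∈ Finset.range N, ∑ i ∈ Finset.range (2 ^ n), Cm * us n i m j := by
          apply Finset.sum_le_sum
          intro n _
          apply Finset.sum_le_sum
          intro i hi
          exact hm a ha δ hδ hδ1 n i m j (Finset.mem_range.1 hi) hj
      _ = Cm * ∑ n ∈ Finset.range N, ∑ i ∈ Finset.range (2 ^ n), us n i m j := by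
          simp [Finset.mul_sum]
      _ ≤ Cm * A := mul_le_mul_of_nonneg_left (hrow N m j hj).2 hCm.le
      _ ≤ _ := by linarith
  · linarith
  · linarith [(r2 N).1]
  · linarith [(r2 N).2]

/-- The local theorem. -/
def Local : Prop :=
  ∀ (L : ℝ) (γ : ℝ → ℂ) (E : Set ℝ) (u : ℂ) (ρ κ : ℝ), 0 < L → LipschitzWith 1 γ →
    Good L γ E u ρ κ →
    ∃ ω : ℝ → ℝ, Measurable ω ∧ (∀ t, 0 ≤ ω t) ∧ (∀ t, ω t ≤ 1) ∧ (∀ᵐ t : ℝ, t ∈ E → 0 < ω t) ∧
      ∃ c : ℝ≥0, ∀ f : ℝ → ℂ, Measurable f → MemLp f 2 (volume.restrict (Icc (0 : ℝ) L)) →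
        ∃ B : ℝ → ℝ≥0∞, Measurable B ∧ (∀ᵐ t : ℝ, t ∈ E → Amax L γ f t ≤ B t) ∧
          ∫⁻ t in E, B t ^ 2 * ENNReal.ofReal (ω t) ≤ c * ∫⁻ t in Icc (0 : ℝ) L, ‖f t‖ₑ ^ 2

theorem sq_add4 (a b c d : ℝ≥0∞) : (a + b + c + d) ^ 2 ≤ 4 * (a ^ 2 + b ^ 2 + c ^ 2 + d ^ 2) := by
  have h2 : ∀ x y : ℝ≥0∞, (x + y) ^ 2 ≤ 2 * (x ^ 2 + y ^ 2) := by
    intro x y
    rcases eq_or_ne x ⊤ with rfl | hx
    · simp
    rcases eq_or_ne y ⊤ with rfl | hy
    · simp
    lift x to ℝ≥0 using hx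
    lift y to ℝ≥0 using hy
    norm_cast
    rw [← NNReal.coe_le_coe]
    push_cast
    nlinarith [sq_nonneg ((x : ℝ) - y)]
  calc (a + b + c + d) ^ 2 = ((a + b) + (c + d)) ^ 2 := by ring
    _ ≤ 2 * ((a + b) ^ 2 + (c + d) ^ 2) := h2 _ _
    _ ≤ 2 * (2 * (a ^ 2 + b ^ 2) + 2 * (c ^ 2 + d ^ 2)) := by
        gcongr <;> exact h2 _ _
    _ = _ := by ring

theorem cs_sq (L : ℝ) (g : ℝ → ℝ≥0∞) (hg : Measurable g) :
    (∫⁻ s in Icc (0 : ℝ) L, g s) ^ 2 ≤ ENNReal.ofReal L * ∫⁻ s in Icc (0 : ℝ) L, g s ^ 2 := by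
  have h := ENNReal.lintegral_mul_le_Lp_mul_Lq (volume.restrict (Icc (0 : ℝ) L))
    (p := 2) (q := 2) (by constructor <;> norm_num) hg.aemeasurable (g := fun _ => 1) aemeasurable_const
  simp only [Pi.mul_apply, mul_one, ENNReal.one_rpow, lintegral_const, one_mul,
    Measure.restrict_apply MeasurableSet.univ, univ_inter, Real.volume_Icc, sub_zero] at h
  have h' : (∫⁻ s in Icc (0 : ℝ) L, g s) ^ 2 ≤
      ((∫⁻ s in Icc (0 : ℝ) L, g s ^ (2 : ℝ)) ^ (1 / 2 : ℝ) *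
        ENNReal.ofReal L ^ (1 / 2 : ℝ)) ^ 2 := by
    gcongr
  refine h'.trans (le_of_eq ?_)
  rw [mul_pow, ← ENNReal.rpow_natCast, ← ENNReal.rpow_natCast, ← ENNReal.rpow_mul,
    ← ENNReal.rpow_mul]
  norm_num
  rw [mul_comm]

theorem local_of (hE : TaskExt) (hM : TaskMarc) (hP : TaskPoint) (hL : Limsup) : Local := by
  intro L γ E u ρ κ L0 hγ hg
  rcases E.eq_empty_or_nonempty with rfl | hne
  · refine ⟨fun _ => 0, measurable_const, fun _ => le_rfl, fun _ => zero_le_one, ?_, 0, ?_⟩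
    · exact Eventually.of_forall fun t ht => absurd ht (notMem_empty t)
    · intro f _ _
      exact ⟨fun _ => 0, measurable_const,
        Eventually.of_forall fun t ht => absurd ht (notMem_empty t), by simp⟩
  obtain ⟨t0, ht0⟩ := hne
  obtain ⟨a, ha, hua⟩ := hE L γ E u ρ κ hg
  obtain ⟨ω, ωm, ω0, ω1, ωp, hω⟩ := hM L E L0 hg.closed hg.sub ⟨t0, ht0⟩
  have hα : ∀ t ∈ E, t0 - 1 / 2 < t - 1 / 4 ∧ t + 1 / 4 < t0 - 1 / 2 + 1 := by
    intro t ht
    have h1 := hg.diam t ht t0 ht0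
    have h2 := hg.ρle
    rw [abs_lt] at h1
    constructor <;> linarith [h1.1, h1.2]
  obtain ⟨C, hC⟩ := hP L γ E u ρ κ L0 hγ hg a ha hua (t0 - 1 / 2) hα
  obtain ⟨D, hD⟩ := hL
  refine ⟨ω, ωm, ω0, ω1, ωp, 4 * (C ^ 2 * L.toNNReal * L.toNNReal + C ^ 2 + C ^ 2 * 2 + D), ?_⟩
  intro f fm hf
  set J : Set ℝ := Icc (0 : ℝ) L ∩ Ico (t0 - 1 / 2) (t0 - 1 / 2 + 1) with hJ
  have hJm : MeasurableSet J := measurableSet_Icc.inter measurableSet_Ico
  set F : ℝ → ℂ := J.indicator (fun s => f s * deriv γ s / u) with hF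
  have hγm : Measurable (deriv γ) := measurable_deriv γ
  have hFm : Measurable F := ((fm.mul hγm).div_const u).indicator hJm
  have hder : ∀ s, ‖deriv γ s‖ ≤ 1 := fun s => by
    simpa using norm_deriv_le_of_lipschitz hγ (x₀ := s)
  have hFle : ∀ s, ‖F s‖ ≤ ‖(Icc (0 : ℝ) L).indicator f s‖ := by
    intro s
    by_cases hs : s ∈ J
    · rw [hF, indicator_of_mem hs, indicator_of_mem hs.1, norm_div, norm_mul, hg.nu, div_one]
      exact mul_le_of_le_one_right (norm_nonneg _) (hder s)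
    · rw [hF, indicator_of_notMem hs, norm_zero]
      exact norm_nonneg _
  have hfI : MemLp ((Icc (0 : ℝ) L).indicator f) 2 volume :=
    (memLp_indicator_iff_restrict measurableSet_Icc).2 hf
  have hFL : MemLp F 2 volume := hfI.mono hFm.aestronglyMeasurable (Eventually.of_forall hFle)
  obtain ⟨B0, B0m, hB0, hB0i⟩ := hD a ha (t0 - 1 / 2) F hFL (by
    intro s hs
    rw [hF, indicator_of_notMem (fun h => hs h.2)])
  have hFi : ∫⁻ s, ‖F s‖ₑ ^ 2 ≤ ∫⁻ t in Icc (0 : ℝ) L, ‖f t‖ₑ ^ 2 := by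
    rw [← lintegral_indicator measurableSet_Icc]
    apply lintegral_mono
    intro s
    have h1 : ‖F s‖ₑ ≤ ‖(Icc (0 : ℝ) L).indicator f s‖ₑ := by
      rw [enorm_le_iff_norm_le]; exact hFle s
    calc ‖F s‖ₑ ^ 2 ≤ ‖(Icc (0 : ℝ) L).indicator f s‖ₑ ^ 2 := by gcongr
      _ = _ := by
        by_cases hs : s ∈ Icc (0 : ℝ) L
        · simp [indicator_of_mem hs]
        · simp [indicator_of_notMem hs]
  set M : ℝ → ℝ≥0∞ := fun t =>
    ∫⁻ s in Icc (0 : ℝ) L, ‖f s‖ₑ * ENNReal.ofReal (Metric.infDist s E / (s - t) ^ 2) with hM'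
  have Mm : Measurable M := by
    apply Measurable.lintegral_prod_right'
      (f := fun p : ℝ × ℝ => ‖f p.2‖ₑ * ENNReal.ofReal (Metric.infDist p.2 E / (p.2 - p.1) ^ 2))
    have q1 : Measurable fun p : ℝ × ℝ => ‖f p.2‖ₑ := (fm.comp measurable_snd).enorm
    have q2 : Measurable fun p : ℝ × ℝ =>
        ENNReal.ofReal (Metric.infDist p.2 E / (p.2 - p.1) ^ 2) := by
      apply ENNReal.measurable_ofReal.comp
      have q3 : Measurable fun p : ℝ × ℝ => Metric.infDist p.2 E :=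
        (Metric.continuous_infDist_pt E).measurable.comp measurable_snd
      have q4 : Measurable fun p : ℝ × ℝ => (p.2 - p.1) ^ 2 :=
        (measurable_snd.sub measurable_fst).pow_const 2
      exact q3.div q4
    exact q1.mul q2
  have fem : Measurable fun s => ‖f s‖ₑ := fm.enorm
  set I1 : ℝ≥0∞ := ∫⁻ s in Icc (0 : ℝ) L, ‖f s‖ₑ with hI1
  refine ⟨fun t => C * I1 + C * ‖f t‖ₑ + C * M t + B0 t, ?_, ?_, ?_⟩
  · exact (((measurable_const).add (fem.const_mul _)).add (Mm.const_mul _)).add B0m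
  · filter_upwards [hC f fm hf, hB0] with t h1 h2 ht
    refine (h1 ht).trans ?_
    have ht' : t ∈ Ioo (t0 - 1 / 2) (t0 - 1 / 2 + 1) := by
      have := hα t ht
      constructor <;> linarith [this.1, this.2]
    exact add_le_add le_rfl (h2 ht')
  · set X : ℝ≥0∞ := ∫⁻ t in Icc (0 : ℝ) L, ‖f t‖ₑ ^ 2 with hX
    have hEm : MeasurableSet E := hg.closed.measurableSet
    have e1 : ∫⁻ t in E, (C * I1 + C * ‖f t‖ₑ + C * M t + B0 t) ^ 2 * ENNReal.ofReal (ω t) ≤
        ∫⁻ t in E, (4 * (C * I1) ^ 2 + 4 * (C ^ 2 * ‖f t‖ₑ ^ 2) +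
          4 * (C ^ 2 * (M t ^ 2 * ENNReal.ofReal (ω t))) + 4 * B0 t ^ 2) := by
      apply lintegral_mono
      intro t
      have hω1 : ENNReal.ofReal (ω t) ≤ 1 := by
        rw [← ENNReal.ofReal_one]; exact ENNReal.ofReal_le_ofReal (ω1 t)
      calc (C * I1 + C * ‖f t‖ₑ + C * M t + B0 t) ^ 2 * ENNReal.ofReal (ω t)
          ≤ (4 * ((C * I1) ^ 2 + (C * ‖f t‖ₑ) ^ 2 + (C * M t) ^ 2 + B0 t ^ 2)) *
            ENNReal.ofReal (ω t) := by
            gcongr
            exact sq_add4 _ _ _ _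
        _ = 4 * (C * I1) ^ 2 * ENNReal.ofReal (ω t) +
            4 * (C ^ 2 * ‖f t‖ₑ ^ 2) * ENNReal.ofReal (ω t) +
            4 * (C ^ 2 * (M t ^ 2 * ENNReal.ofReal (ω t))) +
            4 * B0 t ^ 2 * ENNReal.ofReal (ω t) := by ring
        _ ≤ 4 * (C * I1) ^ 2 * 1 + 4 * (C ^ 2 * ‖f t‖ₑ ^ 2) * 1 +
            4 * (C ^ 2 * (M t ^ 2 * ENNReal.ofReal (ω t))) + 4 * B0 t ^ 2 * 1 := by
            gcongr
        _ = _ := by simp only [mul_one]
    refine e1.trans ?_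
    have m1 : Measurable fun t => 4 * ((C : ℝ≥0∞) ^ 2 * ‖f t‖ₑ ^ 2) :=
      ((fem.pow_const 2).const_mul _).const_mul _
    have m2 : Measurable fun t => 4 * ((C : ℝ≥0∞) ^ 2 * (M t ^ 2 * ENNReal.ofReal (ω t))) :=
      (((Mm.pow_const 2).mul ωm.ennreal_ofReal).const_mul _).const_mul _
    have m3 : Measurable fun t => 4 * B0 t ^ 2 := (B0m.pow_const 2).const_mul _
    rw [lintegral_add_right _ m3, lintegral_add_right _ m2, lintegral_add_right _ m1]
    have p1 : ∫⁻ _ in E, 4 * (C * I1) ^ 2 ≤ 4 * (C ^ 2 * L.toNNReal * L.toNNReal) * X := by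
      rw [lintegral_const, Measure.restrict_apply MeasurableSet.univ, univ_inter]
      have hv : volume E ≤ ENNReal.ofReal L := by
        calc volume E ≤ volume (Icc (0 : ℝ) L) := measure_mono hg.sub
          _ = _ := by simp
      have hI := cs_sq L (fun s => ‖f s‖ₑ) fem
      calc 4 * (C * I1) ^ 2 * volume E ≤ 4 * (C * I1) ^ 2 * ENNReal.ofReal L := by gcongr
        _ = 4 * (C ^ 2 * ENNReal.ofReal L) * I1 ^ 2 := by ring
        _ ≤ 4 * (C ^ 2 * ENNReal.ofReal L) * (ENNReal.ofReal L * X) := by gcongr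
        _ = _ := by simp only [ENNReal.ofReal]; ring
    have p2 : ∫⁻ t in E, 4 * ((C : ℝ≥0∞) ^ 2 * ‖f t‖ₑ ^ 2) ≤ 4 * C ^ 2 * X := by
      rw [lintegral_const_mul _ ((fem.pow_const 2).const_mul _), lintegral_const_mul _ (fem.pow_const 2),
        ← mul_assoc]
      gcongr
      exact lintegral_mono_set hg.sub
    have p3 : ∫⁻ t in E, 4 * ((C : ℝ≥0∞) ^ 2 * (M t ^ 2 * ENNReal.ofReal (ω t))) ≤
        4 * (C ^ 2 * 2) * X := by
      have m4 : Measurable fun t => M t ^ 2 * ENNReal.ofReal (ω t) :=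
        (Mm.pow_const 2).mul ωm.ennreal_ofReal
      rw [lintegral_const_mul _ (m4.const_mul _), lintegral_const_mul _ m4]
      calc 4 * ((C : ℝ≥0∞) ^ 2 * ∫⁻ t in E, M t ^ 2 * ENNReal.ofReal (ω t))
          ≤ 4 * ((C : ℝ≥0∞) ^ 2 * (2 * X)) := by
            gcongr
            exact hω (fun s => ‖f s‖ₑ) fem
        _ = _ := by ring
    have p4 : ∫⁻ t in E, 4 * B0 t ^ 2 ≤ 4 * D * X := by
      rw [lintegral_const_mul _ (B0m.pow_const 2), mul_assoc]
      gcongr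
      calc ∫⁻ t in E, B0 t ^ 2 ≤ ∫⁻ t, B0 t ^ 2 := setLIntegral_le_lintegral _ _
        _ ≤ D * ∫⁻ s, ‖F s‖ₑ ^ 2 := hB0i
        _ ≤ _ := by gcongr
    calc _ ≤ 4 * ((C : ℝ≥0∞) ^ 2 * L.toNNReal * L.toNNReal) * X + 4 * (C : ℝ≥0∞) ^ 2 * X +
          4 * ((C : ℝ≥0∞) ^ 2 * 2) * X + 4 * D * X :=
          add_le_add (add_le_add (add_le_add p1 p2) p3) p4
      _ = _ := by push_cast; ring

/-- The frozen statement from the local theorem and the covering. -/
theorem final_of (hC : TaskCover) (hLoc : Local) :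
    ∀ L : ℝ, 0 < L → ∀ γ : ℝ → ℂ, LipschitzWith 1 γ →
      (∀ᵐ s ∂(volume.restrict (Set.Icc (0 : ℝ) L)), ‖deriv γ s‖ = 1) →
      Set.InjOn γ (Set.Ico (0 : ℝ) L) →
      ∃ ω : ℝ → ℝ, Measurable ω ∧
        (∀ᵐ t ∂(volume.restrict (Set.Icc (0 : ℝ) L)), 0 < ω t) ∧
        ∃ c : ℝ≥0∞, c < ⊤ ∧
          ∀ f : ℝ → ℂ, MemLp f 2 (volume.restrict (Set.Icc (0 : ℝ) L)) →
            ∫⁻ t in Set.Icc (0 : ℝ) L, (Amax L γ f t) ^ 2 * ENNReal.ofReal (ω t)
              ≤ c * ∫⁻ t in Set.Icc (0 : ℝ) L, ‖f t‖ₑ ^ 2 := by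
  intro L L0 γ hγ hd hinj
  obtain ⟨E, u, ρ, κ, hg, hcov⟩ := hC L L0 γ hγ hd hinj
  choose ω ωm ω0 ω1 ωp c hc using fun n => hLoc L γ (E n) (u n) (ρ n) (κ n) L0 hγ (hg n)
  -- weights
  set w : ℕ → ℝ → ℝ≥0∞ := fun n t =>
    (2⁻¹ : ℝ≥0∞) ^ (n + 1) * ((1 + (c n : ℝ≥0∞))⁻¹ * (E n).indicator (fun t => ENNReal.ofReal (ω n t)) t)
    with hw
  have wm : ∀ n, Measurable (w n) := fun n =>
    (((ωm n).ennreal_ofReal.indicator (hg n).closed.measurableSet).const_mul _).const_mul _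
  have hinv : ∀ n, (1 + (c n : ℝ≥0∞))⁻¹ ≤ 1 := fun n => by
    rw [ENNReal.inv_le_one]; exact le_self_add
  have wle : ∀ n t, w n t ≤ (2⁻¹ : ℝ≥0∞) ^ (n + 1) := by
    intro n t
    have h1 : (E n).indicator (fun t => ENNReal.ofReal (ω n t)) t ≤ 1 := by
      by_cases ht : t ∈ E n
      · rw [indicator_of_mem ht, ← ENNReal.ofReal_one]
        exact ENNReal.ofReal_le_ofReal (ω1 n t)
      · rw [indicator_of_notMem ht]; exact zero_le_one
    calc w n t ≤ (2⁻¹ : ℝ≥0∞) ^ (n + 1) * (1 * 1) := by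
          simp only [hw]
          gcongr
          exact hinv n
      _ = _ := by simp
  have hgeo : ∑' n : ℕ, (2⁻¹ : ℝ≥0∞) ^ (n + 1) = 1 := ENNReal.tsum_geometric_add_one _ |>.trans (by
    rw [ENNReal.one_sub_inv_two, inv_inv]
    exact ENNReal.inv_mul_cancel (by norm_num) (by norm_num))
  have hsum : ∀ t, ∑' n, w n t ≤ 1 := fun t => by
    rw [← hgeo]
    exact ENNReal.tsum_le_tsum fun n => wle n t
  have hfin : ∀ t, ∑' n, w n t ≠ ⊤ := fun t => ne_top_of_le_ne_top ENNReal.one_ne_top (hsum t)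
  refine ⟨fun t => (∑' n, w n t).toReal, (Measurable.tsum wm).ennreal_toReal, ?_, 1,
    ENNReal.one_lt_top, ?_⟩
  · have h2 : ∀ᵐ t ∂(volume.restrict (Icc (0 : ℝ) L)), ∀ n, t ∈ E n → 0 < ω n t := by
      rw [ae_all_iff]
      intro n
      exact ae_restrict_of_ae (ωp n)
    filter_upwards [hcov, h2] with t ht h2t
    obtain ⟨n, hn⟩ := ht
    apply ENNReal.toReal_pos _ (hfin t)
    have h3 : 0 < w n t := by
      simp only [hw]
      rw [indicator_of_mem hn]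
      apply ENNReal.mul_pos
      · exact pow_ne_zero _ (by simp)
      · apply mul_ne_zero
        · rw [ENNReal.inv_ne_zero]
          exact ENNReal.add_ne_top.2 ⟨ENNReal.one_ne_top, ENNReal.coe_ne_top⟩
        · exact (ENNReal.ofReal_pos.2 (h2t n hn)).ne'
    exact (h3.trans_le (ENNReal.le_tsum n)).ne'
  · intro f hf
    set f' : ℝ → ℂ := hf.1.mk f with hf'
    have fm' : Measurable f' := hf.1.stronglyMeasurable_mk.measurable
    have hff' : f =ᵐ[volume.restrict (Icc (0 : ℝ) L)] f' := hf.1.ae_eq_mk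
    have hf2 : MemLp f' 2 (volume.restrict (Icc (0 : ℝ) L)) := hf.ae_eq hff'
    have hA : ∀ t, Amax L γ f t = Amax L γ f' t := by
      intro t
      unfold Amax
      congr 1
      funext ε
      congr 2
      apply integral_congr_ae
      have hsub : {s : ℝ | s ∈ Icc (0 : ℝ) L ∧ ε < ‖γ s - γ t‖} ⊆ Icc (0 : ℝ) L := fun s hs => hs.1
      have := ae_restrict_of_ae_restrict_of_subset hsub hff'
      filter_upwards [this] with s hs
      rw [hs]
    have hX : ∫⁻ t in Icc (0 : ℝ) L, ‖f t‖ₑ ^ 2 = ∫⁻ t in Icc (0 : ℝ) L, ‖f' t‖ₑ ^ 2 := by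
      apply lintegral_congr_ae
      filter_upwards [hff'] with s hs
      rw [hs]
    rw [hX]
    choose B Bm hB hBi using fun n => hc n f' fm' hf2
    set X : ℝ≥0∞ := ∫⁻ t in Icc (0 : ℝ) L, ‖f' t‖ₑ ^ 2 with hXd
    have hall : ∀ᵐ t ∂(volume.restrict (Icc (0 : ℝ) L)), ∀ n, t ∈ E n → Amax L γ f' t ≤ B n t := by
      rw [ae_all_iff]
      intro n
      exact ae_restrict_of_ae (hB n)
    calc ∫⁻ t in Icc (0 : ℝ) L, (Amax L γ f t) ^ 2 * ENNReal.ofReal (∑' n, w n t).toReal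
        = ∫⁻ t in Icc (0 : ℝ) L, (Amax L γ f' t) ^ 2 * ∑' n, w n t := by
          apply lintegral_congr
          intro t
          rw [hA t, ENNReal.ofReal_toReal (hfin t)]
      _ ≤ ∫⁻ t in Icc (0 : ℝ) L, ∑' n, (B n t) ^ 2 * w n t := by
          apply lintegral_mono_ae
          filter_upwards [hall] with t ht
          rw [← ENNReal.tsum_mul_left]
          apply ENNReal.tsum_le_tsum
          intro n
          by_cases hn : t ∈ E n
          · gcongr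
            exact ht n hn
          · have : w n t = 0 := by
              simp only [hw]
              rw [indicator_of_notMem hn]; simp
            rw [this]; simp
      _ = ∑' n, ∫⁻ t in Icc (0 : ℝ) L, (B n t) ^ 2 * w n t := by
          apply lintegral_tsum
          intro n
          exact (((Bm n).pow_const 2).mul (wm n)).aemeasurable
      _ ≤ ∑' n, (2⁻¹ : ℝ≥0∞) ^ (n + 1) * X := by
          apply ENNReal.tsum_le_tsum
          intro n
          have e1 : ∀ t, (B n t) ^ 2 * w n t = (2⁻¹ : ℝ≥0∞) ^ (n + 1) * ((1 + (c n : ℝ≥0∞))⁻¹ *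
              (E n).indicator (fun t => (B n t) ^ 2 * ENNReal.ofReal (ω n t)) t) := by
            intro t
            by_cases hn : t ∈ E n
            · simp only [hw, indicator_of_mem hn]; ring
            · simp only [hw, indicator_of_notMem hn]; ring
          simp_rw [e1]
          have mm : Measurable ((E n).indicator (fun t => (B n t) ^ 2 * ENNReal.ofReal (ω n t))) :=
            (((Bm n).pow_const 2).mul (ωm n).ennreal_ofReal).indicator (hg n).closed.measurableSet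
          rw [lintegral_const_mul _ (mm.const_mul _), lintegral_const_mul _ mm]
          gcongr
          calc (1 + (c n : ℝ≥0∞))⁻¹ * ∫⁻ t in Icc (0 : ℝ) L,
                (E n).indicator (fun t => (B n t) ^ 2 * ENNReal.ofReal (ω n t)) t
              ≤ (1 + (c n : ℝ≥0∞))⁻¹ * ∫⁻ t,
                (E n).indicator (fun t => (B n t) ^ 2 * ENNReal.ofReal (ω n t)) t := by
                gcongr
                exact Measure.restrict_le_self
            _ = (1 + (c n : ℝ≥0∞))⁻¹ * ∫⁻ t in E n, (B n t) ^ 2 * ENNReal.ofReal (ω n t) := by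
                rw [lintegral_indicator (hg n).closed.measurableSet]
            _ ≤ (1 + (c n : ℝ≥0∞))⁻¹ * (c n * X) := by
                gcongr
                exact hBi n
            _ = ((1 + (c n : ℝ≥0∞))⁻¹ * c n) * X := by rw [mul_assoc]
            _ ≤ 1 * X := by
                gcongr
                calc (1 + (c n : ℝ≥0∞))⁻¹ * c n ≤ (1 + (c n : ℝ≥0∞))⁻¹ * (1 + c n) := by
                      gcongr; exact le_add_self
                  _ = 1 := ENNReal.inv_mul_cancel (by simp)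
                      (ENNReal.add_ne_top.2 ⟨ENNReal.one_ne_top, ENNReal.coe_ne_top⟩)
            _ = X := one_mul X
      _ = 1 * X := by rw [ENNReal.tsum_mul_right, hgeo]

/-- Everything together. -/
theorem final (h1 : TaskNear) (h2 : TaskFar) (h3 : TaskMatrix) (h3' : TaskRoot)
    (h4 : TaskRows) (h5 : TaskBessel) (h6 : TaskSchur) (h7 : TaskRect) (h8 : TaskDense)
    (h9 : TaskTranslate) (h10 : TaskTail) (h11 : TaskLimit) (h12 : TaskCover) (h13 : TaskExt)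
    (h14 : TaskMarc) (h15 : TaskPoint) :
    ∀ L : ℝ, 0 < L → ∀ γ : ℝ → ℂ, LipschitzWith 1 γ →
      (∀ᵐ s ∂(volume.restrict (Set.Icc (0 : ℝ) L)), ‖deriv γ s‖ = 1) →
      Set.InjOn γ (Set.Ico (0 : ℝ) L) →
      ∃ ω : ℝ → ℝ, Measurable ω ∧
        (∀ᵐ t ∂(volume.restrict (Set.Icc (0 : ℝ) L)), 0 < ω t) ∧
        ∃ c : ℝ≥0∞, c < ⊤ ∧
          ∀ f : ℝ → ℂ, MemLp f 2 (volume.restrict (Set.Icc (0 : ℝ) L)) →
            ∫⁻ t in Set.Icc (0 : ℝ) L, (Amax L γ f t) ^ 2 * ENNReal.ofReal (ω t)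
              ≤ c * ∫⁻ t in Set.Icc (0 : ℝ) L, ‖f t‖ₑ ^ 2 :=
  final_of h12 (local_of h13 h14 h15 (h11 h10 (h9 (h8 (discrete h1 h2 h3 h3' h4 h5 h6) h7))))

end Pool.Agent.H487R3.Cau
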